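import Mathlib
import Pool.Agent.Y734.R.Stms3

/-!
# Project Y734/R, task PR: equations of independent systems of polynomials (helper87)
-/

set_option autoImplicit false

namespace Pool.Agent.Y734.R.PR

open Pool.Agent.Y734.R MvPolynomial TensorProduct

theorem exists_hom {σ ι k : Type} [Field k] [Algebra ℚ k] (w : ι → MvPolynomial σ ℚ) (u : ι → k)
    (h : ∀ G : MvPolynomial ι ℚ, MvPolynomial.aeval w G = 0 → MvPolynomial.aeval u G = 0) :
    ∃ f : (aeval w : MvPolynomial ι ℚ →ₐ[ℚ] MvPolynomial σ ℚ).range →ₐ[ℚ] k,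
      ∀ G : MvPolynomial ι ℚ, f ⟨aeval w G, ⟨G, rfl⟩⟩ = aeval u G := by
  let φ : MvPolynomial ι ℚ →ₐ[ℚ] MvPolynomial σ ℚ := aeval w
  have hs : Function.Surjective φ.rangeRestrict := AlgHom.rangeRestrict_surjective φ
  let e := Ideal.quotientKerAlgEquivOfSurjective hs
  let l : (MvPolynomial ι ℚ ⧸ RingHom.ker φ.rangeRestrict) →ₐ[ℚ] k :=
    Ideal.Quotient.liftₐ (RingHom.ker φ.rangeRestrict) (aeval u) (fun G hG => h G (by
      rw [RingHom.mem_ker] at hG
      exact congrArg Subtype.val hG))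
  refine ⟨l.comp e.symm.toAlgHom, fun G => ?_⟩
  have h1 : e (Ideal.Quotient.mk _ G) = ⟨aeval w G, ⟨G, rfl⟩⟩ := rfl
  rw [← h1]
  show l (e.symm (e _)) = _
  rw [AlgEquiv.symm_apply_apply]
  rfl

theorem tens_inl {σ τ : Type} (p : MvPolynomial σ ℚ) :
    tensorEquivSum ℚ σ τ ℚ (p ⊗ₜ 1) = rename Sum.inl p := by
  have h : ((tensorEquivSum ℚ σ τ ℚ).toAlgHom.comp
      (Algebra.TensorProduct.includeLeft : MvPolynomial σ ℚ →ₐ[ℚ] _)) = rename Sum.inl := by
    apply MvPolynomial.algHom_ext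
    intro i
    simp
  exact congrArg (fun f => f p) h

theorem tens_inr {σ τ : Type} (p : MvPolynomial τ ℚ) :
    tensorEquivSum ℚ σ τ ℚ (1 ⊗ₜ p) = rename Sum.inr p := by
  have h : ((tensorEquivSum ℚ σ τ ℚ).toAlgHom.comp
      (Algebra.TensorProduct.includeRight : MvPolynomial τ ℚ →ₐ[ℚ] _)) = rename Sum.inr := by
    apply MvPolynomial.algHom_ext
    intro i
    simp
  exact congrArg (fun f => f p) h

theorem prd : ProdStmt := by
  intro σ τ ι ι' k _ _ _ _ _ _ w w' u v hu hv G hG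
  obtain ⟨f, hf⟩ := exists_hom w u hu
  obtain ⟨g, hg⟩ := exists_hom w' v hv
  let R := (aeval w : MvPolynomial ι ℚ →ₐ[ℚ] MvPolynomial σ ℚ).range
  let R' := (aeval w' : MvPolynomial ι' ℚ →ₐ[ℚ] MvPolynomial τ ℚ).range
  let a : ι → R := fun i => ⟨aeval w (X i), ⟨X i, rfl⟩⟩
  let b : ι' → R' := fun i => ⟨aeval w' (X i), ⟨X i, rfl⟩⟩
  have ha : ∀ i, f (a i) = u i := fun i => by
    rw [hf, aeval_X]
  have hb : ∀ i, g (b i) = v i := fun i => by
    rw [hg, aeval_X]
  let W : ι ⊕ ι' → R ⊗[ℚ] R' := Sum.elim (fun i => a i ⊗ₜ[ℚ] 1) (fun i => 1 ⊗ₜ[ℚ] b i)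
  let Θ : R ⊗[ℚ] R' →ₐ[ℚ] MvPolynomial (σ ⊕ τ) ℚ :=
    (tensorEquivSum ℚ σ τ ℚ).toAlgHom.comp (Algebra.TensorProduct.map R.val R'.val)
  have hinj : Function.Injective Θ := by
    have h1 : Function.Injective (Algebra.TensorProduct.map R.val R'.val) := by
      exact TensorProduct.map_injective_of_flat_flat R.val.toLinearMap R'.val.toLinearMap
        Subtype.val_injective Subtype.val_injective
    exact (tensorEquivSum ℚ σ τ ℚ).injective.comp h1
  have h1 : Θ (aeval W G) = 0 := by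
    have h2 : Θ (aeval W G) = aeval (fun i => Θ (W i)) G := by
      rw [← MvPolynomial.comp_aeval_apply]
    rw [h2, ← hG]
    congr 2
    funext i
    rcases i with i | i
    · show tensorEquivSum ℚ σ τ ℚ ((aeval w (X i)) ⊗ₜ 1) = rename Sum.inl (w i)
      rw [tens_inl, aeval_X]
    · show tensorEquivSum ℚ σ τ ℚ (1 ⊗ₜ (aeval w' (X i))) = rename Sum.inr (w' i)
      rw [tens_inr, aeval_X]
  have h2 : aeval W G = 0 := hinj (by rw [h1, map_zero])
  have h3 : Algebra.TensorProduct.productMap f g (aeval W G) = aeval (Sum.elim u v) G := by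
    rw [MvPolynomial.comp_aeval_apply]
    congr 2
    funext i
    rcases i with i | i
    · show Algebra.TensorProduct.productMap f g (a i ⊗ₜ 1) = u i
      rw [Algebra.TensorProduct.productMap_apply_tmul, map_one, mul_one, ha]
    · show Algebra.TensorProduct.productMap f g (1 ⊗ₜ b i) = v i
      rw [Algebra.TensorProduct.productMap_apply_tmul, map_one, one_mul, hb]
  rw [← h3, h2, map_zero]

end Pool.Agent.Y734.R.PR
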